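import Pool.Agent.Helper76.DE.StN

/-!
# Project PRD, module Vc: position in terms of the word
-/

set_option autoImplicit false

noncomputable section

namespace Pool.Agent.Helper98.PRD

open Pool.Agent.Helper76.ND Pool.Agent.Helper76.DE Finset

theorem vc_length (t N : ℕ) : (wd t N).length = t := by
  induction t with
  | zero => rfl
  | succ t ih => simp [wd, ih]

theorem hVc (hRl : StRl) (hDr : StDr) (hPr : StPr) : StVc := by
  obtain ⟨x0, hx03, hPr⟩ := hPr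
  refine ⟨x0, hx03, ?_⟩
  rintro z x y w N hx ⟨hz1, hyr⟩ hw hN1 hN2 hgd
  obtain ⟨hL1, _, _, ht2, _, _, _, hpow, _, _, _, _, _, hlast⟩ := hPr x (y / z) hx hyr
  have htz : tz z x y = t1 x (y / z) := rfl
  rw [← htz] at ht2 hpow
  obtain ⟨T, hT⟩ : ∃ T, T = tz z x y := ⟨_, rfl⟩
  rw [← hT] at ht2 hpow hgd ⊢
  have hx0 : 0 < x := by linarith
  have hz0 : 0 < z := by linarith
  have hyz0 : 0 < y / z := lt_of_lt_of_le (by positivity) hyr.1
  have hy0 : 0 < y := by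
    have := mul_pos hyz0 hz0
    rwa [div_mul_cancel₀ _ hz0.ne'] at this
  have hyzy : y / z ≤ y := div_le_self hy0.le hz1
  have hN0 : (0 : ℝ) < N := by linarith
  set L : ℝ := Real.log x with hLdef
  set D : ℝ := L ^ (2 / 3 : ℝ) with hD
  have hD1 : 1 ≤ D := Real.one_le_rpow hL1 (by norm_num)
  unfold vis Uv
  rw [vc_length]
  apply Finset.sum_le_sum
  intro t ht
  have ht' : t ≤ T := by
    have := Finset.mem_range.1 ht
    omega
  rw [hRl.2.2 T t N ht']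
  set l : List Bool := wd t N with hl
  have hll : l.length = t := vc_length t N
  have hgl : Gd D l := by
    intro j hj
    rw [hll] at hj ⊢
    have h1 := hgd j (by rw [vc_length]; omega)
    rw [vc_length, hRl.2.2 _ j N (by omega)] at h1
    rw [hl, hRl.2.2 t j N hj]
    exact h1
  have hid : (3 : ℝ) ^ hd l * N = 2 ^ t * ((S^[t] N : ℕ) : ℝ) + cc l := by
    exact_mod_cast hRl.1 t N
  have h3 : (0 : ℝ) < 3 ^ hd l := by positivity
  have h2 : (0 : ℝ) < 2 ^ t := by positivity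
  have hs3 : (0 : ℝ) < Real.sqrt 3 := Real.sqrt_pos.2 (by norm_num)
  have hb1 : (1 : ℝ) ≤ 2 / Real.sqrt 3 := by
    rw [le_div_iff₀ hs3, one_mul, Real.sqrt_le_left (by norm_num)]
    norm_num
  have h3D : (0 : ℝ) < (3 : ℝ) ^ D := by positivity
  have hcc : (cc l : ℝ) ≤ 3 ^ hd l * (N / 4) := by
    refine le_trans (hDr l D (by linarith) hgl) ?_
    refine mul_le_mul_of_nonneg_left ?_ h3.le
    rw [hll]
    have e1 : (t : ℝ) ≤ L / 2 := le_trans (by exact_mod_cast ht') ht2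
    have e2 : (2 / Real.sqrt 3) ^ t ≤ x ^ (1 / 20 : ℝ) :=
      le_trans (pow_le_pow_right₀ hb1 ht') hpow
    have e3 : (t : ℝ) * (2 / Real.sqrt 3) ^ t ≤ L / 2 * x ^ (1 / 20 : ℝ) :=
      mul_le_mul e1 e2 (by positivity) (by linarith)
    have e4 : (t : ℝ) * (2 / Real.sqrt 3) ^ t * (3 : ℝ) ^ D ≤
        x ^ (1 / 20 : ℝ) * (L / 2 * (3 : ℝ) ^ D) := by
      have := mul_le_mul_of_nonneg_right e3 h3D.le
      linarith
    have e5 : x ^ (1 / 20 : ℝ) * (L / 2 * (3 : ℝ) ^ D) ≤ x ^ (1 / 20 : ℝ) * (x / 8) :=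
      mul_le_mul_of_nonneg_left hlast (by positivity)
    have e6 : x ^ (1 / 20 : ℝ) * (x / 8) = x ^ (105 / 100 : ℝ) / 8 := by
      have : x ^ (105 / 100 : ℝ) = x ^ (1 / 20 : ℝ) * x := by
        rw [← Real.rpow_add_one hx0.ne']
        norm_num
      rw [this]
      ring
    have e7 := hyr.1
    linarith
  have hsy : (2 : ℝ) ^ t * ((S^[t] N : ℕ) : ℝ) = 3 ^ hd l * N - cc l := by linarith
  have hlow : 3 ^ hd l * (3 / 4 * (N : ℝ)) ≤ 2 ^ t * ((S^[t] N : ℕ) : ℝ) := by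
    rw [hsy]
    linarith
  have hupp : (2 : ℝ) ^ t * ((S^[t] N : ℕ) : ℝ) ≤ 3 ^ hd l * N := by
    rw [hsy]
    have : (0 : ℝ) ≤ cc l := Nat.cast_nonneg _
    linarith
  have hind0 : 0 ≤ ind (2 ^ t * (w / y) / 3 ^ hd l) := by
    unfold ind
    split_ifs <;> norm_num
  split_ifs with h
  · obtain ⟨hw1, hw2⟩ := h
    have hy3 : (0 : ℝ) < 3 ^ hd l * y := mul_pos h3 hy0
    have heq : 2 ^ t * (w / y) / 3 ^ hd l = 2 ^ t * w / (3 ^ hd l * y) := by
      field_simp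
    have hup : 2 ^ t * w / (3 ^ hd l * y) ≤ 3 / 2 := by
      rw [div_le_iff₀ hy3]
      calc 2 ^ t * w ≤ 2 ^ t * ((S^[t] N : ℕ) : ℝ) := mul_le_mul_of_nonneg_left hw1 h2.le
        _ ≤ 3 ^ hd l * N := hupp
        _ ≤ 3 ^ hd l * (3 / 2 * y) := mul_le_mul_of_nonneg_left hN2 h3.le
        _ = 3 / 2 * (3 ^ hd l * y) := by ring
    have hlo : 3 / 16 ≤ 2 ^ t * w / (3 ^ hd l * y) := by
      rw [le_div_iff₀ hy3]
      have h4 : 2 ^ t * ((S^[t] N : ℕ) : ℝ) ≤ 2 ^ t * (2 * w) := mul_le_mul_of_nonneg_left hw2 h2.le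
      have h5 : 3 ^ hd l * (3 / 4 * (y / 2)) ≤ 3 ^ hd l * (3 / 4 * (N : ℝ)) :=
        mul_le_mul_of_nonneg_left (by linarith) h3.le
      nlinarith
    unfold ind
    rw [heq, if_pos ⟨hlo, hup⟩]
  · exact hind0

end Pool.Agent.Helper98.PRD
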